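import Pool.Agent.helper40.SUF.Defs

/-!
The quotient of a loop by its centre.
-/

namespace Pool.Agent.H40SUF

universe u

section centre

variable {Q : Type u} [LoopQ Q]

theorem central_one : IsCentral (1 : Q) :=
  ⟨fun x => by rw [LoopQ.one_mul, LoopQ.mul_one],
   fun x y => by rw [LoopQ.one_mul, LoopQ.one_mul],
   fun x y => by rw [LoopQ.one_mul, LoopQ.mul_one],
   fun x y => by rw [LoopQ.mul_one, LoopQ.mul_one]⟩

theorem central_mul {z w : Q} (hz : IsCentral z) (hw : IsCentral w) : IsCentral (z * w) := by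
  obtain ⟨z1, z2, z3, z4⟩ := hz
  obtain ⟨w1, w2, w3, w4⟩ := hw
  refine ⟨fun x => ?_, fun x y => ?_, fun x y => ?_, fun x y => ?_⟩
  · rw [← z2, w1, z2, z1, ← w4]
  · rw [← z2, w2, z2, z2]
  · rw [← z2, z3, w3, ← w4]
  · rw [w4, w4, z4, ← w4]

theorem central_ldiv {z : Q} (hz : IsCentral z) : IsCentral (ldiv z 1) := by
  obtain ⟨z1, z2, z3, z4⟩ := hz
  have hw : z * ldiv z 1 = 1 := (Equiv.ofBijective _ (LoopQ.bijL z)).apply_symm_apply 1
  have inj : ∀ {a b : Q}, z * a = z * b → a = b := fun h => (LoopQ.bijL z).1 h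
  have h1 : ∀ x : Q, z * (ldiv z 1 * x) = x := fun x => by rw [z2, hw, LoopQ.one_mul]
  have h2 : ∀ x : Q, z * (x * ldiv z 1) = x := fun x => by
    rw [z2, z1, ← z3, hw, LoopQ.mul_one]
  refine ⟨fun x => inj ?_, fun x y => inj ?_, fun x y => inj ?_, fun x y => inj ?_⟩
  · rw [h1, h2]
  · rw [h1, z2, h1]
  · rw [z2 (x * ldiv z 1) y, h2, z2, z1, ← z3, h1]
  · rw [h2, z2, z1, ← z3, h2]

/-- Two elements are equivalent if they differ by a central element. -/
def centreSetoid (Q : Type u) [LoopQ Q] : Setoid Q where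
  r x y := ∃ z, IsCentral z ∧ y = z * x
  iseqv := {
    refl := fun x => ⟨1, central_one, (LoopQ.one_mul x).symm⟩
    symm := by
      rintro x y ⟨z, hz, rfl⟩
      refine ⟨ldiv z 1, central_ldiv hz, ?_⟩
      have hw : z * ldiv z 1 = 1 := (Equiv.ofBijective _ (LoopQ.bijL z)).apply_symm_apply 1
      rw [(central_ldiv hz).2.1, ← hz.1, hw, LoopQ.one_mul]
    trans := by
      rintro x y w ⟨z, hz, rfl⟩ ⟨z', hz', rfl⟩
      exact ⟨z' * z, central_mul hz' hz, (hz'.2.1 z x)⟩ }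

/-- The quotient `Q / Z(Q)` of a loop by its centre. -/
def CQ (Q : Type u) [LoopQ Q] : Type u := Quotient (centreSetoid Q)

/-- The projection to the quotient by the centre. -/
def cq (Q : Type u) [LoopQ Q] (x : Q) : CQ Q := Quotient.mk (centreSetoid Q) x

theorem cq_surj : Function.Surjective (cq Q) := Quotient.exists_rep

theorem cq_eq_iff {x y : Q} : cq Q x = cq Q y ↔ ∃ z, IsCentral z ∧ y = z * x :=
  Quotient.eq (r := centreSetoid Q)

theorem cmul_aux {x y x' y' z z' : Q} (hz : IsCentral z) (hz' : IsCentral z')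
    (h : x' = z * x) (h' : y' = z' * y) : x' * y' = (z * z') * (x * y) := by
  rw [h, h', ← hz.2.1, hz'.2.2.1, ← hz'.1, ← hz'.2.1, hz.2.1]

instance instMulCQ : Mul (CQ Q) :=
  ⟨fun a b => Quotient.map₂ (sa := centreSetoid Q) (sb := centreSetoid Q)
    (sc := centreSetoid Q) (fun x y : Q => x * y) (by
      rintro x x' ⟨z, hz, h⟩ y y' ⟨z', hz', h'⟩
      exact ⟨z * z', central_mul hz hz', cmul_aux hz hz' h h'⟩) a b⟩

instance instOneCQ : One (CQ Q) := ⟨cq Q 1⟩

theorem cq_mul (x y : Q) : cq Q (x * y) = cq Q x * cq Q y := rfl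

theorem cq_one : cq Q 1 = 1 := rfl

instance instLoopCQ : LoopQ (CQ Q) where
  one_mul := fun a => by
    obtain ⟨x, rfl⟩ := cq_surj a
    rw [← cq_one, ← cq_mul, LoopQ.one_mul]
  mul_one := fun a => by
    obtain ⟨x, rfl⟩ := cq_surj a
    rw [← cq_one, ← cq_mul, LoopQ.mul_one]
  bijL := fun a => by
    obtain ⟨a, rfl⟩ := cq_surj a
    constructor
    · intro x y h
      obtain ⟨x, rfl⟩ := cq_surj x
      obtain ⟨y, rfl⟩ := cq_surj y
      have h1 : cq Q (a * x) = cq Q (a * y) := h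
      rw [cq_eq_iff] at h1
      obtain ⟨z, hz, h2⟩ := h1
      rw [cq_eq_iff]
      refine ⟨z, hz, (LoopQ.bijL a).1 ?_⟩
      change a * y = a * (z * x)
      rw [h2, hz.2.2.1, ← hz.1, hz.2.1]
    · intro b
      obtain ⟨b, rfl⟩ := cq_surj b
      obtain ⟨c, hc⟩ := (LoopQ.bijL a).2 b
      exact ⟨cq Q c, congrArg (cq Q) hc⟩
  bijR := fun a => by
    obtain ⟨a, rfl⟩ := cq_surj a
    constructor
    · intro x y h
      obtain ⟨x, rfl⟩ := cq_surj x
      obtain ⟨y, rfl⟩ := cq_surj y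
      have h1 : cq Q (x * a) = cq Q (y * a) := h
      rw [cq_eq_iff] at h1
      obtain ⟨z, hz, h2⟩ := h1
      rw [cq_eq_iff]
      refine ⟨z, hz, (LoopQ.bijR a).1 ?_⟩
      change y * a = (z * x) * a
      rw [h2, hz.2.1]
    · intro b
      obtain ⟨b, rfl⟩ := cq_surj b
      obtain ⟨c, hc⟩ := (LoopQ.bijR a).2 b
      exact ⟨cq Q c, congrArg (cq Q) hc⟩

theorem cq_ext : IsCentralExt (cq Q) where
  map_mul := cq_mul
  surj := cq_surj
  ker := fun x h => by
    have h1 : cq Q 1 = cq Q x := h.symm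
    rw [cq_eq_iff] at h1
    obtain ⟨z, hz, rfl⟩ := h1
    rwa [LoopQ.mul_one]

end centre

/-- `Q / Z_n(Q)` is Moufang, where `Z_n(Q)` is the upper central series. -/
def MoufangModZ : ℕ → (Q : Type u) → [LoopQ Q] → Prop
  | 0, Q, _ => Moufang Q
  | n + 1, Q, _ => MoufangModZ n (CQ Q)

/-- `Q` is centrally nilpotent of class at most `n`. -/
def NilClassLE : ℕ → (Q : Type u) → [LoopQ Q] → Prop
  | 0, Q, _ => Subsingleton Q
  | n + 1, Q, _ => NilClassLE n (CQ Q)

end Pool.Agent.H40SUF
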