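import Pool.Agent.helper40.SUF.Ext
import Pool.Agent.helper40.SUF.CQuot

/-!
Corollaries: `Q / Z_n(Q)` Moufang implies `Q` Moufang, centrally nilpotent loops, and
reduction of finite examples to trivial centre.
-/

namespace Pool.Agent.H40SUF

universe u

theorem moufangModZ_moufang (n : ℕ) : ∀ (Q : Type u) [LoopQ Q], InvProp Q → SUF Q →
    MoufangModZ n Q → Moufang Q := by
  induction n with
  | zero => intro Q _ _ _ h; exact h
  | succ n ih =>
    intro Q _ hip hs h
    have h' : MoufangModZ n (CQ Q) := h
    exact central_step (cq Q) cq_ext hip hs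
      (ih (CQ Q) (InvProp_image cq_ext.map_mul cq_ext.surj hip)
        (SUF_image cq_ext.map_mul cq_ext.surj hs) h')

theorem nil_moufangModZ (n : ℕ) : ∀ (Q : Type u) [LoopQ Q], NilClassLE n Q →
    MoufangModZ n Q := by
  induction n with
  | zero =>
    intro Q _ h
    have h' : Subsingleton Q := h
    intro x y z
    exact h'.elim _ _
  | succ n ih =>
    intro Q _ h
    exact ih (CQ Q) h

/-- A finite non-Moufang example has a quotient with trivial centre which is again an
example. -/
theorem trivial_centre (n : ℕ) : ∀ (Q : Type u) [LoopQ Q] [Finite Q], Nat.card Q ≤ n →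
    InvProp Q → SUF Q → ¬ Moufang Q →
    ∃ (P : Type u) (_ : LoopQ P) (f : Q → P), (∀ x y, f (x * y) = f x * f y) ∧
      Function.Surjective f ∧ InvProp P ∧ SUF P ∧ ¬ Moufang P ∧
      ∀ z : P, IsCentral z → z = 1 := by
  induction n with
  | zero =>
    intro Q _ _ hc
    have : Nat.card Q = 0 := Nat.le_zero.mp hc
    have hne : Nonempty Q := ⟨1⟩
    have := Nat.card_pos (α := Q)
    omega
  | succ n ih =>
    intro Q _ _ hc hip hs hM
    by_cases hz : ∀ z : Q, IsCentral z → z = 1
    · exact ⟨Q, inferInstance, id, fun _ _ => rfl, Function.surjective_id, hip, hs, hM, hz⟩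
    · push Not at hz
      obtain ⟨z, hz, hz1⟩ := hz
      have hfin : Finite (CQ Q) := Finite.of_surjective (cq Q) cq_surj
      have hlt : Nat.card (CQ Q) < Nat.card Q := by
        have hle : Nat.card (CQ Q) ≤ Nat.card Q := Nat.card_le_card_of_surjective _ cq_surj
        refine lt_of_le_of_ne hle (fun heq => ?_)
        have hinj : Function.Injective (cq Q) :=
          ((Nat.bijective_iff_surjective_and_card (cq Q)).2 ⟨cq_surj, heq.symm⟩).1
        apply hz1
        apply hinj
        symm
        rw [cq_eq_iff]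
        exact ⟨z, hz, (LoopQ.mul_one z).symm⟩
      have hip' : InvProp (CQ Q) := InvProp_image cq_ext.map_mul cq_ext.surj hip
      have hs' : SUF (CQ Q) := SUF_image cq_ext.map_mul cq_ext.surj hs
      have hM' : ¬ Moufang (CQ Q) := fun h => hM (central_step (cq Q) cq_ext hip hs h)
      obtain ⟨P, iP, f, h1, h2, h3, h4, h5, h6⟩ := ih (CQ Q) (by omega) hip' hs' hM'
      refine ⟨P, iP, fun x => f (cq Q x), ?_, h2.comp cq_surj, h3, h4, h5, h6⟩
      intro x y
      change f (cq Q (x * y)) = f (cq Q x) * f (cq Q y)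
      rw [cq_mul, h1]

end Pool.Agent.H40SUF
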