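import Mathlib

/-!
Definitions for the problem MP_e88537_al: loops, isotopes, semi-universal flexibility,
the inverse property, Moufang loops, centre, central extensions.
-/

namespace Pool.Agent.H40SUF

universe u

/-- A loop: a product and an identity element such that all left and right
translations are bijections. -/
class LoopQ (Q : Type u) extends Mul Q, One Q where
  one_mul : ∀ x : Q, 1 * x = x
  mul_one : ∀ x : Q, x * 1 = x
  bijL : ∀ a : Q, Function.Bijective (fun x : Q => a * x)
  bijR : ∀ a : Q, Function.Bijective (fun x : Q => x * a)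

section

variable {Q : Type u} [LoopQ Q]

/-- `x \ y`, the preimage of `y` under left translation by `x`. -/
noncomputable def ldiv (x y : Q) : Q := (Equiv.ofBijective _ (LoopQ.bijL x)).symm y

/-- `x / y`, the preimage of `x` under right translation by `y`. -/
noncomputable def rdiv (x y : Q) : Q := (Equiv.ofBijective _ (LoopQ.bijR y)).symm x

/-- The product of the principal isotope `Q_{a,b}`: `(x / a) (b \ y)`. -/
noncomputable def iso (a b x y : Q) : Q := rdiv x a * ldiv b y

/-- Flexibility of a binary operation. -/
def Flexible (op : Q → Q → Q) : Prop := ∀ x y, op x (op y x) = op (op x y) x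

/-- An element commuting and associating with everything. -/
def IsCentral (z : Q) : Prop :=
  (∀ x, z * x = x * z) ∧ (∀ x y, z * (x * y) = (z * x) * y) ∧
    (∀ x y, x * (z * y) = (x * z) * y) ∧ (∀ x y, x * (y * z) = (x * y) * z)

end

/-- Semi-universally flexible: all left isotopes `Q_{a,1}` and all right isotopes
`Q_{1,b}` are flexible. -/
def SUF (Q : Type u) [LoopQ Q] : Prop :=
  (∀ a : Q, Flexible (iso a 1)) ∧ (∀ b : Q, Flexible (iso 1 b))

/-- The inverse property. -/
def InvProp (Q : Type u) [LoopQ Q] : Prop :=
  (∀ x : Q, rdiv 1 x = ldiv x 1) ∧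
    (∀ x y : Q, ldiv x y = ldiv x 1 * y) ∧ (∀ x y : Q, rdiv y x = y * ldiv x 1)

/-- The Moufang law. -/
def Moufang (Q : Type u) [LoopQ Q] : Prop :=
  ∀ x y z : Q, (x * (y * z)) * x = (x * y) * (z * x)

/-- A surjective homomorphism of loops whose kernel consists of central elements. -/
structure IsCentralExt {Q M : Type u} [LoopQ Q] [LoopQ M] (f : Q → M) : Prop where
  map_mul : ∀ x y : Q, f (x * y) = f x * f y
  surj : Function.Surjective f
  ker : ∀ z : Q, f z = 1 → IsCentral z

/-- The smallest class of loops which contains the Moufang loops and is closed under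
central extensions, under the local operator (any three elements lie in a subloop
belonging to the class) and under the residual operator (any two different elements have
different images in some quotient belonging to the class). -/
inductive TowerClass : (Q : Type u) → [LoopQ Q] → Prop
  | moufang {Q : Type u} [LoopQ Q] (h : Moufang Q) : TowerClass Q
  | central {Q M : Type u} [LoopQ Q] [LoopQ M] (f : Q → M) (hf : IsCentralExt f)
      (h : TowerClass M) : TowerClass Q
  | locally {Q : Type u} [LoopQ Q] (S : Q → Q → Q → Type u) [∀ x y z, LoopQ (S x y z)]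
      (f : ∀ x y z, S x y z → Q)
      (hm : ∀ x y z, ∀ a b : S x y z, f x y z (a * b) = f x y z a * f x y z b)
      (hi : ∀ x y z, Function.Injective (f x y z))
      (hx : ∀ x y z, ∃ a b c : S x y z, f x y z a = x ∧ f x y z b = y ∧ f x y z c = z)
      (h : ∀ x y z, TowerClass (S x y z)) : TowerClass Q
  | residually {Q : Type u} [LoopQ Q] (P : Q → Q → Type u) [∀ x y, LoopQ (P x y)]
      (f : ∀ x y, Q → P x y)
      (hm : ∀ x y, ∀ a b : Q, f x y (a * b) = f x y a * f x y b)
      (hs : ∀ x y, Function.Surjective (f x y))
      (hx : ∀ x y, x ≠ y → f x y x ≠ f x y y)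
      (h : ∀ x y, TowerClass (P x y)) : TowerClass Q

end Pool.Agent.H40SUF
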