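import Pool.Agent.helper40.SUF.MLevel

/-!
The Moufang defect of a central extension of a Moufang loop, and its identities.
-/

namespace Pool.Agent.H40SUF

/-- A free action of an additive abelian group by central translations. -/
class CExt (A Q : Type*) [AddCommGroup A] [IPL Q] extends AddAction A Q where
  vl : ∀ (z : A) (x y : Q), (z +ᵥ x) * y = z +ᵥ (x * y)
  vr : ∀ (z : A) (x y : Q), x * (z +ᵥ y) = z +ᵥ (x * y)
  free : ∀ (z w : A) (x : Q), z +ᵥ x = w +ᵥ x → z = w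

section qlevel

variable {A Q : Type*} [AddCommGroup A] [IPL Q] [CExt A Q]

theorem v_inv (z : A) (x : Q) : (z +ᵥ x)⁻¹ = -z +ᵥ x⁻¹ := by
  have h : (-z +ᵥ x⁻¹) * (z +ᵥ x) = 1 := by
    rw [CExt.vl, CExt.vr, neg_vadd_vadd, ip_inv_mul]
  have h2 := ip_ir (z +ᵥ x) (-z +ᵥ x⁻¹)
  rw [h, ip_one_mul] at h2
  exact h2

variable {t : Q → Q → Q → A}
  (ht : ∀ c y u : Q, t c y u +ᵥ ((c * y) * (u * c)) = (c * (y * u)) * c)
include ht

theorem t_uniq {c y u : Q} {z : A} (h : z +ᵥ ((c * y) * (u * c)) = (c * (y * u)) * c) :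
    t c y u = z := by
  rw [← ht c y u] at h
  exact (CExt.free _ _ _ h).symm

theorem t_neg (c y u : Q) : (c * y) * (u * c) = - t c y u +ᵥ ((c * (y * u)) * c) := by
  rw [← ht c y u, neg_vadd_vadd]

variable (flex : ∀ x y : Q, x * (y * x) = (x * y) * x)
include flex

theorem qI (c y u : Q) : t c⁻¹ u⁻¹ y⁻¹ = - t c y u := by
  apply t_uniq ht
  have h := congrArg (fun w : Q => w⁻¹) (ht c y u)
  simp only [v_inv, ip_inv_rev] at h
  rw [h, flex]

theorem qB (c y u : Q) : t c⁻¹ (c * y) (u * c) = - t c y u := by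
  apply t_uniq ht
  rw [t_neg ht c y u, CExt.vr, CExt.vl, ← flex c, ip_il, ip_ir, ip_il, ip_ir]

theorem qz1 (c u : Q) : t c 1 u = 0 := by
  apply t_uniq ht
  rw [zero_vadd, ip_mul_one, ip_one_mul, flex]

theorem qz2 (c y : Q) : t c y 1 = 0 := by
  apply t_uniq ht
  rw [zero_vadd, ip_mul_one, ip_one_mul]

theorem qz3 (d w : Q) : t d d⁻¹ w = 0 := by
  apply t_uniq ht
  rw [zero_vadd, ip_mul_inv, ip_one_mul, ip_il2]

theorem qz4 (d w : Q) : t d w d⁻¹ = 0 := by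
  apply t_uniq ht
  rw [zero_vadd, ip_inv_mul, ip_mul_one, ← flex, ip_ir2]

theorem q_left (c d y : Q) :
    ((c * d) * c) * y = t c (d * (c * y)) (c * y)⁻¹ +ᵥ (c * (d * (c * y))) := by
  have h := ht c (d * (c * y)) (c * y)⁻¹
  rw [ip_ir] at h
  have e : (c * y)⁻¹ * c = y⁻¹ := by simp
  rw [e] at h
  rw [← h, CExt.vl, ip_ir2]

theorem q_right (c d u : Q) :
    u * ((c * d) * c) = t c (u * c)⁻¹ ((u * c) * d) +ᵥ (((u * c) * d) * c) := by
  have h := ht c (u * c)⁻¹ ((u * c) * d)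
  rw [ip_il] at h
  have e : c * (u * c)⁻¹ = u⁻¹ := by simp
  rw [e] at h
  rw [← h, CExt.vr, ip_il2]

/-- `(C y)(u C)` for `C = (c d) c` -/
theorem q_R4aux (c d y u : Q) :
    (((c * d) * c) * y) * (u * ((c * d) * c)) =
      (t c (d * (c * y)) (c * y)⁻¹ + t c (u * c)⁻¹ ((u * c) * d)
        - t c (d * (c * y)) ((u * c) * d) - t d (c * y) (u * c) - t c y u) +ᵥ
        ((c * ((d * ((c * (y * u)) * c)) * d)) * c) := by
  rw [q_left ht flex, q_right ht flex, CExt.vl, CExt.vr, t_neg ht c (d * (c * y)) ((u * c) * d),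
    t_neg ht d (c * y) (u * c), t_neg ht c y u]
  simp only [CExt.vl, CExt.vr, vadd_vadd]
  congr 1
  abel

theorem qR4 (c d y u : Q) : t ((c * d) * c) y u =
    t c y u + t d (c * y) (u * c) + t c (d * (c * y)) ((u * c) * d)
      - t c (d * (c * y)) (c * y)⁻¹ - t c (u * c)⁻¹ ((u * c) * d)
      + t c ((y * u) * c)⁻¹ (((y * u) * c) * d)
      - t d c ((y * u) * c) - t c (d * c) (((y * u) * c) * d) := by
  apply t_uniq ht
  rw [q_R4aux ht flex c d y u]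
  have h1 := q_R4aux ht flex c d 1 (y * u)
  rw [ip_mul_one, ip_mul_one, ip_one_mul, qz1 ht flex] at h1
  have h2 : t c (d * c) c⁻¹ = 0 := qz4 ht flex c (d * c)
  rw [h2, flex] at h1
  rw [h1, vadd_vadd]
  congr 1
  abel

variable (R : ∀ b X Y : Q, (b * X) * (b⁻¹ * ((b * Y) * X)) = ((b * X) * Y) * X)
include R

theorem qS (c y u : Q) : t c y u = t u ((u⁻¹ * y) * (u * c)) (u * c)⁻¹ := by
  apply t_uniq ht
  have h := ht u ((u⁻¹ * y) * (u * c)) (u * c)⁻¹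
  rw [ip_ir, ip_il2] at h
  have e : (u * c)⁻¹ * u = c⁻¹ := by simp
  have e2 : u * ((u⁻¹ * y) * (u * c)) = c⁻¹ * ((c * y) * (u * c)) := by
    have h3 := R u⁻¹ (u * c) y
    rw [ip_il, ip_inv_inv] at h3
    rw [← h3, ip_il]
  rw [e, e2] at h
  rw [← h, CExt.vr, CExt.vl, ← flex, ip_ir2, ip_il2]

theorem qR3 (c y u : Q) :
    t (c * ((y * u) * c)) y⁻¹ c⁻¹ = t c y u + t c y⁻¹ (y * u) := by
  apply t_uniq ht
  have h1 := ht c y u
  have h2 := ht c y⁻¹ (y * u)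
  have h3 := R c ((y * u) * c) y⁻¹
  rw [ip_il] at h2
  rw [← flex] at h1 h2
  have e1 : (y⁻¹ * c⁻¹) * (c * ((y * u) * c)) = t c y u +ᵥ (u * c) := by
    rw [← h1, CExt.vr, ← ip_inv_rev, ip_il]
  have e2 : u * c = t c y⁻¹ (y * u) +ᵥ (c⁻¹ * ((c * y⁻¹) * ((y * u) * c))) := by
    rw [← CExt.vr, h2, ip_il]
  rw [← flex, e1, e2, ip_il, CExt.vr, CExt.vr, h3, vadd_vadd]

/-- All identities of the defect. -/
theorem q_TH : TH t where
  I := qI ht flex
  B := qB ht flex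
  S := qS ht flex R
  R4 := qR4 ht flex
  R3 := qR3 ht flex R
  z1 := qz1 ht flex
  z2 := qz2 ht flex
  z3 := qz3 ht flex
  z4 := qz4 ht flex

end qlevel

end Pool.Agent.H40SUF
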