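import Pool.Agent.helper40.SUF.Defs
import Pool.Agent.helper40.SUF.QLevel

/-!
From the loops of the problem to the computation with the defect.
-/

namespace Pool.Agent.H40SUF

universe u

section basic

variable {Q M : Type u} [LoopQ Q] [LoopQ M]

theorem mul_ldiv (x y : Q) : x * ldiv x y = y :=
  (Equiv.ofBijective _ (LoopQ.bijL x)).apply_symm_apply y

theorem ldiv_mul (x y : Q) : ldiv x (x * y) = y :=
  (Equiv.ofBijective _ (LoopQ.bijL x)).symm_apply_apply y

theorem rdiv_mul (x y : Q) : rdiv x y * y = x :=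
  (Equiv.ofBijective _ (LoopQ.bijR y)).apply_symm_apply x

theorem mul_rdiv (x y : Q) : rdiv (x * y) y = x :=
  (Equiv.ofBijective _ (LoopQ.bijR y)).symm_apply_apply x

theorem lcan {x y z : Q} (h : x * y = x * z) : y = z := (LoopQ.bijL x).1 h

theorem rcan {x y z : Q} (h : y * x = z * x) : y = z := (LoopQ.bijR x).1 h

theorem map_one' {f : Q → M} (hf : ∀ x y : Q, f (x * y) = f x * f y) : f 1 = 1 := by
  have h := hf 1 1
  rw [LoopQ.one_mul] at h
  apply lcan (x := f 1)
  rw [← h, LoopQ.mul_one]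

theorem map_ldiv {f : Q → M} (hf : ∀ x y : Q, f (x * y) = f x * f y) (x y : Q) :
    f (ldiv x y) = ldiv (f x) (f y) := by
  apply lcan (x := f x)
  rw [mul_ldiv, ← hf, mul_ldiv]

theorem map_rdiv {f : Q → M} (hf : ∀ x y : Q, f (x * y) = f x * f y) (x y : Q) :
    f (rdiv x y) = rdiv (f x) (f y) := by
  apply rcan (x := f y)
  rw [rdiv_mul, ← hf, rdiv_mul]

theorem map_iso {f : Q → M} (hf : ∀ x y : Q, f (x * y) = f x * f y) (a b x y : Q) :
    f (iso a b x y) = iso (f a) (f b) (f x) (f y) := by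
  rw [iso, hf, map_rdiv hf, map_ldiv hf, iso]

theorem SUF_image {f : Q → M} (hf : ∀ x y : Q, f (x * y) = f x * f y)
    (hs : Function.Surjective f) (h : SUF Q) : SUF M := by
  refine ⟨fun a => ?_, fun b => ?_⟩
  · intro x y
    obtain ⟨a, rfl⟩ := hs a
    obtain ⟨x, rfl⟩ := hs x
    obtain ⟨y, rfl⟩ := hs y
    have h1 := congrArg f (h.1 a x y)
    simpa only [map_iso hf, map_one' hf] using h1
  · intro x y
    obtain ⟨b, rfl⟩ := hs b
    obtain ⟨x, rfl⟩ := hs x
    obtain ⟨y, rfl⟩ := hs y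
    have h1 := congrArg f (h.2 b x y)
    simpa only [map_iso hf, map_one' hf] using h1

theorem InvProp_image {f : Q → M} (hf : ∀ x y : Q, f (x * y) = f x * f y)
    (hs : Function.Surjective f) (h : InvProp Q) : InvProp M := by
  refine ⟨fun x => ?_, fun x y => ?_, fun x y => ?_⟩
  · obtain ⟨x, rfl⟩ := hs x
    have h1 := congrArg f (h.1 x)
    simpa only [map_ldiv hf, map_rdiv hf, map_one' hf] using h1
  · obtain ⟨x, rfl⟩ := hs x
    obtain ⟨y, rfl⟩ := hs y
    have h1 := congrArg f (h.2.1 x y)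
    simpa only [map_ldiv hf, map_rdiv hf, map_one' hf, hf] using h1
  · obtain ⟨x, rfl⟩ := hs x
    obtain ⟨y, rfl⟩ := hs y
    have h1 := congrArg f (h.2.2 x y)
    simpa only [map_ldiv hf, map_rdiv hf, map_one' hf, hf] using h1

/-- The inverse property loop structure. -/
@[reducible] noncomputable def toIPL (h : InvProp Q) : IPL Q where
  inv := fun x => ldiv x 1
  one_mul' := LoopQ.one_mul
  mul_one' := LoopQ.mul_one
  il' := fun x y => by
    rw [← h.2.1, ldiv_mul]
  ir' := fun x y => by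
    rw [← h.2.2, mul_rdiv]

end basic

/-- the kernel of a map of loops -/
def Kr {Q M : Type u} [LoopQ M] (f : Q → M) : Type u := {z : Q // f z = 1}

section ker

variable {Q M : Type u} [LoopQ Q] [LoopQ M]

theorem ker_inv {f : Q → M} (hf : ∀ x y : Q, f (x * y) = f x * f y) {z : Q} (hz : f z = 1) :
    f (ldiv z 1) = 1 := by
  rw [map_ldiv hf, hz, map_one' hf]
  apply lcan (x := (1 : M))
  rw [mul_ldiv, LoopQ.one_mul]

/-- the kernel as an additive group -/
@[reducible] noncomputable def krGroup (f : Q → M) (hf : IsCentralExt f) (hip : InvProp Q) :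
    AddCommGroup (Kr f) :=
  letI : Add (Kr f) :=
    ⟨fun z w => ⟨z.1 * w.1, by rw [hf.map_mul, z.2, w.2, LoopQ.one_mul]⟩⟩
  letI : Zero (Kr f) := ⟨⟨1, map_one' hf.map_mul⟩⟩
  letI : Neg (Kr f) := ⟨fun z => ⟨ldiv z.1 1, ker_inv hf.map_mul z.2⟩⟩
  { add_assoc := fun x y z => Subtype.ext ((hf.ker x.1 x.2).2.1 y.1 z.1).symm
    zero_add := fun x => Subtype.ext (LoopQ.one_mul x.1)
    add_zero := fun x => Subtype.ext (LoopQ.mul_one x.1)
    neg_add_cancel := fun x => Subtype.ext (by
      change ldiv x.1 1 * x.1 = 1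
      rw [← hip.1, rdiv_mul])
    add_comm := fun x y => Subtype.ext ((hf.ker x.1 x.2).1 y.1)
    nsmul := nsmulRec
    zsmul := zsmulRec }

end ker

/-- The main step. -/
theorem central_step {Q M : Type u} [LoopQ Q] [LoopQ M] (f : Q → M) (hf : IsCentralExt f)
    (hip : InvProp Q) (hs : SUF Q) (hM : Moufang M) : Moufang Q := by
  have hipM : InvProp M := InvProp_image hf.map_mul hf.surj hip
  let iQ : IPL Q := toIPL hip
  let iM : IPL M := toIPL hipM
  let gA : AddCommGroup (Kr f) := krGroup f hf hip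
  have hone : f 1 = 1 := map_one' hf.map_mul
  have hinv : ∀ x : Q, f x⁻¹ = (f x)⁻¹ := fun x => by
    change f (ldiv x 1) = ldiv (f x) 1
    rw [map_ldiv hf.map_mul, hone]
  let act : CExt (Kr f) Q :=
    { vadd := fun z x => z.1 * x
      zero_vadd := fun x => LoopQ.one_mul x
      add_vadd := fun z w x => ((hf.ker z.1 z.2).2.1 w.1 x).symm
      vl := fun z x y => ((hf.ker z.1 z.2).2.1 x y).symm
      vr := fun z x y => by
        change x * (z.1 * y) = z.1 * (x * y)
        have hz := hf.ker z.1 z.2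
        rw [hz.2.2.1, ← hz.1, hz.2.1]
      free := fun z w x h => Subtype.ext (rcan h) }
  -- the element of the kernel carrying `x` to `x'`
  have hker : ∀ x x' : Q, f x = f x' → f (x' * x⁻¹) = 1 := by
    intro x x' h
    rw [hf.map_mul, hinv, ← h]
    exact ip_mul_inv (f x)
  have hex : ∀ x x' : Q, f x = f x' → ∃ z : Kr f, x' = z +ᵥ x := by
    intro x x' h
    refine ⟨⟨x' * x⁻¹, hker x x' h⟩, ?_⟩
    exact (ip_ir2 x x').symm
  obtain ⟨t, ht⟩ : ∃ t : Q → Q → Q → Kr f,
      ∀ c y u : Q, t c y u +ᵥ ((c * y) * (u * c)) = (c * (y * u)) * c := by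
    refine ⟨fun c y u => ⟨((c * (y * u)) * c) * ((c * y) * (u * c))⁻¹, ?_⟩, ?_⟩
    · apply hker
      simp only [hf.map_mul]
      exact (hM (f c) (f y) (f u)).symm
    · intro c y u
      exact ip_ir2 _ _
  have hi1 : ∀ (z : Kr f) (c y u : Q), t (z +ᵥ c) y u = t c y u := by
    intro z c y u
    apply t_uniq ht
    simp only [CExt.vl, CExt.vr]
    rw [← ht c y u, vadd_vadd, vadd_vadd, vadd_vadd, vadd_vadd]
    congr 1
    abel
  have hi2 : ∀ (z : Kr f) (c y u : Q), t c (z +ᵥ y) u = t c y u := by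
    intro z c y u
    apply t_uniq ht
    simp only [CExt.vl, CExt.vr]
    rw [← ht c y u, vadd_vadd, vadd_vadd]
    congr 1
    abel
  have hi3 : ∀ (z : Kr f) (c y u : Q), t c y (z +ᵥ u) = t c y u := by
    intro z c y u
    apply t_uniq ht
    simp only [CExt.vl, CExt.vr]
    rw [← ht c y u, vadd_vadd, vadd_vadd]
    congr 1
    abel
  obtain ⟨T, hT⟩ : ∃ T : M → M → M → Kr f, ∀ c y u : Q, T (f c) (f y) (f u) = t c y u := by
    refine ⟨fun a b c => t (Function.surjInv hf.surj a) (Function.surjInv hf.surj b)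
      (Function.surjInv hf.surj c), ?_⟩
    intro c y u
    obtain ⟨z1, h1⟩ := hex c _ (Function.surjInv_eq hf.surj (f c)).symm
    obtain ⟨z2, h2⟩ := hex y _ (Function.surjInv_eq hf.surj (f y)).symm
    obtain ⟨z3, h3⟩ := hex u _ (Function.surjInv_eq hf.surj (f u)).symm
    simp only [h1, h2, h3, hi1, hi2, hi3]
  have hiso : ∀ b x y : Q, iso 1 b x y = x * (b⁻¹ * y) := by
    intro b x y
    have e1 : rdiv x (1 : Q) = x := by
      have h := mul_rdiv x (1 : Q)
      rwa [LoopQ.mul_one] at h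
    rw [iso, e1, hip.2.1]
    rfl
  have R : ∀ b X Y : Q, (b * X) * (b⁻¹ * ((b * Y) * X)) = ((b * X) * Y) * X := by
    intro b X Y
    have h := hs.2 b (b * X) (b * Y)
    simp only [hiso] at h
    have e1 : b⁻¹ * (b * X) = X := ip_il b X
    have e2 : b⁻¹ * (b * Y) = Y := ip_il b Y
    rwa [e1, e2] at h
  have flex : ∀ x y : Q, x * (y * x) = (x * y) * x := by
    intro x y
    have h := hs.2 1 x y
    simp only [hiso] at h
    have e1 : ∀ w : Q, (1 : Q)⁻¹ * w = w := fun w => by
      have h2 := ip_il (1 : Q) w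
      rwa [LoopQ.one_mul] at h2
    simpa only [e1] using h
  have hq : TH t := q_TH ht flex R
  have hTH : TH T := by
    constructor
    · intro c y u
      obtain ⟨c, rfl⟩ := hf.surj c
      obtain ⟨y, rfl⟩ := hf.surj y
      obtain ⟨u, rfl⟩ := hf.surj u
      have h := hq.I c y u
      simpa only [← hT, hinv, hf.map_mul] using h
    · intro c y u
      obtain ⟨c, rfl⟩ := hf.surj c
      obtain ⟨y, rfl⟩ := hf.surj y
      obtain ⟨u, rfl⟩ := hf.surj u
      have h := hq.B c y u
      simpa only [← hT, hinv, hf.map_mul] using h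
    · intro c y u
      obtain ⟨c, rfl⟩ := hf.surj c
      obtain ⟨y, rfl⟩ := hf.surj y
      obtain ⟨u, rfl⟩ := hf.surj u
      have h := hq.S c y u
      simpa only [← hT, hinv, hf.map_mul] using h
    · intro c d y u
      obtain ⟨c, rfl⟩ := hf.surj c
      obtain ⟨d, rfl⟩ := hf.surj d
      obtain ⟨y, rfl⟩ := hf.surj y
      obtain ⟨u, rfl⟩ := hf.surj u
      have h := hq.R4 c d y u
      simpa only [← hT, hinv, hf.map_mul] using h
    · intro c y u
      obtain ⟨c, rfl⟩ := hf.surj c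
      obtain ⟨y, rfl⟩ := hf.surj y
      obtain ⟨u, rfl⟩ := hf.surj u
      have h := hq.R3 c y u
      simpa only [← hT, hinv, hf.map_mul] using h
    · intro c u
      obtain ⟨c, rfl⟩ := hf.surj c
      obtain ⟨u, rfl⟩ := hf.surj u
      have h := hq.z1 c u
      simpa only [← hT, hone] using h
    · intro c y
      obtain ⟨c, rfl⟩ := hf.surj c
      obtain ⟨y, rfl⟩ := hf.surj y
      have h := hq.z2 c y
      simpa only [← hT, hone] using h
    · intro c u
      obtain ⟨c, rfl⟩ := hf.surj c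
      obtain ⟨u, rfl⟩ := hf.surj u
      have h := hq.z3 c u
      simpa only [← hT, hinv] using h
    · intro c u
      obtain ⟨c, rfl⟩ := hf.surj c
      obtain ⟨u, rfl⟩ := hf.surj u
      have h := hq.z4 c u
      simpa only [← hT, hinv] using h
  have hm : ∀ c y u : M, (c * y) * (u * c) = (c * (y * u)) * c := fun c y u => (hM c y u).symm
  intro x y z
  have h := ht x y z
  rw [← hT, tzero hTH hm, zero_vadd] at h
  exact h.symm

end Pool.Agent.H40SUF
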