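import Mathlib

/-!
Inverse property loops (in the form needed for the computations), and the
computation with the Moufang defect on the Moufang quotient.
-/

namespace Pool.Agent.H40SUF

/-- A set with product, unit and inverse with the inverse property laws. -/
class IPL (Q : Type*) extends Mul Q, One Q, Inv Q where
  one_mul' : ∀ x : Q, 1 * x = x
  mul_one' : ∀ x : Q, x * 1 = x
  il' : ∀ x y : Q, x⁻¹ * (x * y) = y
  ir' : ∀ x y : Q, (y * x) * x⁻¹ = y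

section ipl

variable {Q : Type*} [IPL Q]

@[simp] theorem ip_one_mul (x : Q) : 1 * x = x := IPL.one_mul' x
@[simp] theorem ip_mul_one (x : Q) : x * 1 = x := IPL.mul_one' x
@[simp] theorem ip_il (x y : Q) : x⁻¹ * (x * y) = y := IPL.il' x y
@[simp] theorem ip_ir (x y : Q) : (y * x) * x⁻¹ = y := IPL.ir' x y
@[simp] theorem ip_inv_mul (x : Q) : x⁻¹ * x = 1 := by
  have h := ip_il x (1 : Q)
  rwa [ip_mul_one] at h
@[simp] theorem ip_mul_inv (x : Q) : x * x⁻¹ = 1 := by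
  have h := ip_ir x (1 : Q)
  rwa [ip_one_mul] at h
@[simp] theorem ip_inv_inv (x : Q) : x⁻¹⁻¹ = x := by
  have h := ip_il x⁻¹ x
  rwa [ip_inv_mul, ip_mul_one] at h
@[simp] theorem ip_il2 (x y : Q) : x * (x⁻¹ * y) = y := by
  have h := ip_il x⁻¹ y
  rwa [ip_inv_inv] at h
@[simp] theorem ip_ir2 (x y : Q) : (y * x⁻¹) * x = y := by
  have h := ip_ir x⁻¹ y
  rwa [ip_inv_inv] at h
@[simp] theorem ip_inv_rev (x y : Q) : (x * y)⁻¹ = y⁻¹ * x⁻¹ := by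
  have h := ip_ir (x * y) x⁻¹
  rw [ip_il] at h
  have h2 := ip_il y (x * y)⁻¹
  rw [h] at h2
  exact h2.symm
@[simp] theorem ip_inv_one : (1 : Q)⁻¹ = 1 := by
  have h := ip_il (1 : Q) 1
  rwa [ip_mul_one, ip_mul_one] at h

theorem ip_lcancel {x y z : Q} (h : x * y = x * z) : y = z := by
  have h2 := congrArg (fun w => x⁻¹ * w) h
  simpa using h2

theorem ip_rcancel {x y z : Q} (h : y * x = z * x) : y = z := by
  have h2 := congrArg (fun w => w * x⁻¹) h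
  simpa using h2

end ipl

/-- The identities satisfied by the Moufang defect. -/
structure TH {M A : Type*} [IPL M] [AddCommGroup A] (T : M → M → M → A) : Prop where
  I : ∀ c y u, T c⁻¹ u⁻¹ y⁻¹ = - T c y u
  B : ∀ c y u, T c⁻¹ (c * y) (u * c) = - T c y u
  S : ∀ c y u, T c y u = T u ((u⁻¹ * y) * (u * c)) (u * c)⁻¹
  R4 : ∀ c d y u, T ((c * d) * c) y u =
    T c y u + T d (c * y) (u * c) + T c (d * (c * y)) ((u * c) * d)
      - T c (d * (c * y)) (c * y)⁻¹ - T c (u * c)⁻¹ ((u * c) * d)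
      + T c ((y * u) * c)⁻¹ (((y * u) * c) * d)
      - T d c ((y * u) * c) - T c (d * c) (((y * u) * c) * d)
  R3 : ∀ c y u, T (c * ((y * u) * c)) y⁻¹ c⁻¹ = T c y u + T c y⁻¹ (y * u)
  z1 : ∀ c u, T c 1 u = 0
  z2 : ∀ c y, T c y 1 = 0
  z3 : ∀ d w, T d d⁻¹ w = 0
  z4 : ∀ d w, T d w d⁻¹ = 0

section mlevel

variable {M A : Type*} [IPL M] [AddCommGroup A]

theorem m_flex (hm : ∀ c y u : M, (c * y) * (u * c) = (c * (y * u)) * c) (c u : M) :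
    (c * u) * c = c * (u * c) := by
  have h := hm c 1 u
  simpa using h.symm

theorem m_left (hm : ∀ c y u : M, (c * y) * (u * c) = (c * (y * u)) * c) (c d y : M) :
    c * (d * (c * y)) = ((c * d) * c) * y := by
  have h := hm c (d * (c * y)) (c * y)⁻¹
  simp only [ip_inv_rev, ip_ir2] at h
  have h3 : (d * (c * y)) * (y⁻¹ * c⁻¹) = d := by
    have h4 := ip_ir (c * y) d
    rwa [ip_inv_rev] at h4
  rw [h3] at h
  rw [← h]
  simp

theorem m_right (hm : ∀ c y u : M, (c * y) * (u * c) = (c * (y * u)) * c) (c d u : M) :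
    u * ((c * d) * c) = ((u * c) * d) * c := by
  have h := hm c (u * c)⁻¹ ((u * c) * d)
  simp only [ip_inv_rev, ip_il2] at h
  have h3 : (c⁻¹ * u⁻¹) * ((u * c) * d) = d := by
    have h4 := ip_il (u * c) d
    rwa [ip_inv_rev] at h4
  rw [h3] at h
  rw [← h]
  simp

variable {T : M → M → M → A} (h : TH T)
include h

theorem tS' (U Y V : M) : T U Y V = T (U⁻¹ * V⁻¹) (U * (Y * V)) U := by
  have h1 := h.S (U⁻¹ * V⁻¹) (U * (Y * V)) U
  rw [h1]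
  simp

theorem tSs (c y u : M) : T c y u = T y (c * y)⁻¹ ((c * y) * (u * y⁻¹)) := by
  have h1 := h.S c⁻¹ u⁻¹ y⁻¹
  rw [h.I] at h1
  have h2 := h.I y ((y⁻¹⁻¹ * u⁻¹) * (y⁻¹ * c⁻¹))⁻¹ (y⁻¹ * c⁻¹)⁻¹⁻¹
  have h3 := h.I y⁻¹ ((y⁻¹⁻¹ * u⁻¹) * (y⁻¹ * c⁻¹)) (y⁻¹ * c⁻¹)⁻¹
  have h4 : T c y u = - T y⁻¹ ((y⁻¹⁻¹ * u⁻¹) * (y⁻¹ * c⁻¹)) (y⁻¹ * c⁻¹)⁻¹ := by
    rw [← h1, neg_neg]
  rw [h4, ← h3]
  simp

theorem tSs' (P Q R : M) : T P Q R = T (Q⁻¹ * P⁻¹) P ((Q * R) * P) := by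
  have h1 := tSs h (Q⁻¹ * P⁻¹) P ((Q * R) * P)
  rw [h1]
  simp

variable (hm : ∀ c y u : M, (c * y) * (u * c) = (c * (y * u)) * c)
include hm

theorem tN1 (x y z : M) : T (z * x) y z = T x y z := by
  -- `a = y⁻¹`, `b = z`, `v = z * x`
  have key : ∀ a b v : M, T v a⁻¹ b = T (b⁻¹ * v) a⁻¹ b := by
    intro a b v
    have hR := h.R4 a⁻¹ (b * a) b⁻¹ v
    have hC : (a⁻¹ * (b * a)) * a⁻¹ = a⁻¹ * b := by
      rw [m_flex hm]; simp
    have hT2 : T (b * a) (a⁻¹ * b⁻¹) (v * a⁻¹) = 0 := by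
      have h3 := h.z3 (b * a) (v * a⁻¹)
      rwa [ip_inv_rev] at h3
    have h1 : (b * a) * (a⁻¹ * b⁻¹) = 1 := by
      have h3 := ip_mul_inv (b * a)
      rwa [ip_inv_rev] at h3
    rw [hC, hT2, h1, h.z1, h.z1] at hR
    have hT5 := tSs h v a⁻¹ b
    have hT6 := tSs h (b⁻¹ * v) a⁻¹ b
    have hT7 := tSs h (b * a) a⁻¹ ((b⁻¹ * v) * a⁻¹)
    have hT8 := tSs' h a⁻¹ b (((b⁻¹ * v) * a⁻¹) * (b * a))
    have hB := h.B (a⁻¹ * b) b⁻¹ v
    simp only [ip_ir, ip_ir2, ip_inv_inv, ip_il2] at hT5 hT6 hT7 hT8 hR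
    have hM1 : b * (((b⁻¹ * v) * a⁻¹) * (b * a)) = ((b * ((b⁻¹ * v) * a⁻¹)) * b) * a :=
      m_left hm b ((b⁻¹ * v) * a⁻¹) a
    have hM2 : ((b * ((b⁻¹ * v) * a⁻¹)) * b) * (b⁻¹ * a) = v := by
      rw [← m_left hm b ((b⁻¹ * v) * a⁻¹) (b⁻¹ * a)]
      simp
    have hM3 : v * (a⁻¹ * b) = (b * ((b⁻¹ * v) * a⁻¹)) * b := by
      have h5 : v * (b⁻¹ * a)⁻¹ = (b * ((b⁻¹ * v) * a⁻¹)) * b := by
        rw [← hM2]
        simp only [ip_ir]
        rw [hM2]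
      rw [← h5]; simp
    rw [hM1, ip_ir] at hT8
    rw [hM3] at hB
    simp only [ip_inv_rev, ip_inv_inv, ip_ir] at hB
    have hb : (a⁻¹ * b) * b⁻¹ = a⁻¹ := ip_ir _ _
    rw [hT8, hB] at hR
    rw [hT7] at hR
    rw [hT5, hT6]
    generalize T a⁻¹ (v * a⁻¹)⁻¹ (v * a⁻¹ * (b * a)) = P at hR ⊢
    generalize T a⁻¹ (b⁻¹ * v * a⁻¹)⁻¹ (b⁻¹ * v * a⁻¹ * (b * a)) = Q at hR ⊢
    linear_combination (norm := module) hR
  have h2 := key y⁻¹ z (z * x)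
  simpa using h2

theorem tN2 (x y z : M) : T (x * y) y z = T x y z := by
  have h1 := tN1 h hm x⁻¹ z⁻¹ y⁻¹
  have h2 := h.I (x * y) y z
  have h3 := h.I x y z
  rw [ip_inv_rev, h1] at h2
  rw [h2] at h3
  exact neg_injective h3

theorem tcan (c d b : M) : T c (d * c) (b * d) = - T d c b := by
  have h1 := tN2 h hm d⁻¹ (d * c) (b * d)
  rw [ip_il] at h1
  rw [h1, h.B]

theorem tR4' (c d y u : M) : T ((c * d) * c) y u =
    T c y u + T d (c * y) (u * c) + T c (d * (c * y)) ((u * c) * d)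
      - T c (d * (c * y)) (c * y)⁻¹ - T c (u * c)⁻¹ ((u * c) * d)
      + T c ((y * u) * c)⁻¹ (((y * u) * c) * d) := by
  rw [h.R4, tcan h hm]
  abel

/-- the relation called (**) in the notes -/
theorem tSt (c d y : M) : T c (d * (c * y)) (c * y)⁻¹ = T c y⁻¹ (y * d) := by
  have hR := tR4' h hm c d y c⁻¹
  have e1 : (y * c⁻¹) * c = y := ip_ir2 _ _
  rw [e1] at hR
  simp only [ip_inv_mul, ip_inv_one, ip_one_mul, h.z1, h.z2, h.z4] at hR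
  have hT0 : T ((c * d) * c) y c⁻¹ = T c (d * (c * y)) d := by
    rw [h.S c (d * (c * y)) d, ip_il, ← tN1 h hm d ((c * y) * (d * c)) (d * c)⁻¹,
      tS' h ((d * c)⁻¹ * d)]
    have e2 : (d * c)⁻¹ * d = c⁻¹ := by simp
    rw [m_flex hm, e2, ip_ir]
    simp
  rw [hT0] at hR
  generalize T c (d * (c * y)) (c * y)⁻¹ = P at hR ⊢
  linear_combination (norm := module) hR

theorem tEst (x y z : M) : T x y z = T ((y⁻¹ * z) * x⁻¹) y z := by
  have h1 := tSt h hm z (z⁻¹ * y) x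
  have h2 := tS' h z ((z⁻¹ * y) * (z * x)) (z * x)⁻¹
  have h3 := tS' h z x⁻¹ (x * (z⁻¹ * y))
  rw [h2, h3] at h1
  simp only [ip_inv_inv, ip_il, ip_il2, ip_inv_rev] at h1
  have h5 : (z⁻¹ * y * (z * x)) * (x⁻¹ * z⁻¹) = z⁻¹ * y := by
    have h6 := ip_ir (z * x) (z⁻¹ * y)
    rwa [ip_inv_rev] at h6
  rw [h5] at h1
  simp only [ip_il2] at h1
  have h4 := tN1 h hm (z⁻¹ * ((y⁻¹ * z) * x⁻¹)) y z
  rw [ip_il2] at h4
  rw [h1, ← h4]

theorem tRaw (x y z : M) : T x y z = T (z⁻¹ * ((y⁻¹ * z) * (z⁻¹ * (y * x⁻¹)))) y z := by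
  have hR := tR4' h hm z (z⁻¹ * y) x y⁻¹
  have e1 : (z * (z⁻¹ * y)) * z = y * z := by rw [ip_il2]
  have e2 : (y⁻¹ * z) * (z⁻¹ * y) = 1 := by
    have h6 := ip_inv_mul (z⁻¹ * y)
    rwa [ip_inv_rev, ip_inv_inv] at h6
  have e3 : T (z⁻¹ * y) (z * x) (y⁻¹ * z) = 0 := by
    have h6 := h.z4 (z⁻¹ * y) (z * x)
    rwa [ip_inv_rev, ip_inv_inv] at h6
  have e4 : T (y * z) x y⁻¹ = T z x y⁻¹ := by
    have h6 := tN1 h hm (y * z) x y⁻¹
    rwa [ip_il, eq_comm] at h6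
  rw [e1, e2, e3, e4, h.z2, h.z2] at hR
  have h2 := tS' h z ((z⁻¹ * y) * (z * x)) (z * x)⁻¹
  have h3 := tS' h z ((x * y⁻¹) * z)⁻¹ (((x * y⁻¹) * z) * (z⁻¹ * y))
  rw [h2, h3] at hR
  simp only [ip_ir, ip_inv_inv, ip_il, ip_il2] at hR
  simp only [ip_inv_rev, ip_inv_inv] at hR
  generalize T x y z = P at hR ⊢
  linear_combination (norm := module) hR

theorem tG0 (x y z : M) : T ((x * y⁻¹) * z) y z = T x y z := by
  rw [tRaw h hm x y z, tEst h hm ((x * y⁻¹) * z) y z, ip_inv_rev, ip_inv_rev, ip_inv_inv]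
  have h4 := tN1 h hm (z⁻¹ * ((y⁻¹ * z) * (z⁻¹ * (y * x⁻¹)))) y z
  rw [ip_il2] at h4
  exact h4

theorem tG (x y z : M) : T (x * z) y z = T x y z := by
  have h1 := tG0 h hm (x * y) y z
  rwa [ip_ir, tN2 h hm] at h1

theorem tH (x y z : M) : T (y * x) y z = T x y z := by
  have h1 := tG h hm x⁻¹ z⁻¹ y⁻¹
  have h2 := h.I (y * x) y z
  have h3 := h.I x y z
  rw [ip_inv_rev, h1] at h2
  rw [h2] at h3
  exact neg_injective h3

theorem tE3 (x y z : M) : T x z y⁻¹ = - T x y z := by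
  -- `p = x`, `q = y`, `r = z`
  have h1 := tSt h hm x (y * z) y⁻¹
  rw [ip_inv_inv, ip_il] at h1
  -- `h1 : T x ((y*z)*(x*y⁻¹)) (x*y⁻¹)⁻¹ = T x y z`
  have h2 := h.S x ((y * z) * (x * y⁻¹)) (x * y⁻¹)⁻¹
  have e1 : (x * y⁻¹)⁻¹ * x = y := by simp
  rw [e1, ip_inv_inv] at h2
  have h3 := tN1 h hm (y * x) z y⁻¹
  rw [ip_il] at h3
  have h4 := h.S (y * x) z y⁻¹
  rw [ip_inv_inv, ip_il] at h4
  have h5 := tN1 h hm (x * y⁻¹) ((y * z) * x) x⁻¹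
  rw [ip_il] at h5
  have h6 := h.B (x * y⁻¹) ((y * z) * x) x⁻¹
  rw [ip_il] at h6
  have e2 : (x * y⁻¹) * ((y * z) * x) = ((x * y⁻¹) * ((y * z) * (x * y⁻¹))) * y := by
    have h7 := m_left hm (x * y⁻¹) (y * z) y
    rw [ip_ir2, m_flex hm] at h7
    exact h7
  rw [h3, h4, h5, ← h1, h2, ← e2, h6, neg_neg]

theorem tE5 (x y z : M) : T x⁻¹ y z = T x y z := by
  rw [tRaw h hm x y z, m_left hm, m_flex hm z⁻¹, ip_ir]
  have h1 := m_right hm y (x⁻¹ * y⁻¹) (z⁻¹ * y⁻¹)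
  rw [m_flex hm y, ip_ir2, ip_ir2] at h1
  rw [h1, tN2 h hm]
  have h2 := tN1 h hm (z⁻¹ * (x⁻¹ * y⁻¹)) y z
  rw [ip_il2] at h2
  rw [← h2]
  have h3 := tN2 h hm (x⁻¹ * y⁻¹) y z
  rw [ip_ir2] at h3
  exact h3

theorem tEv2 (x y z : M) : T x y⁻¹ z = T x y z := by
  -- `T x z⁻¹ y⁻¹ = - T x y z`, `T x z y⁻¹ = - T x y z`
  have key : ∀ c u w : M, T c u⁻¹ w = T c u w := by
    intro c u w
    have h1 := h.I c w⁻¹ u
    rw [tE5 h hm, ip_inv_inv] at h1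
    have h2 := tE3 h hm c w⁻¹ u
    rw [ip_inv_inv] at h2
    rw [h1, h2]
  exact key x y z

theorem tAnti (x y z : M) : T x z y = - T x y z := by
  have h1 := tE3 h hm x y⁻¹ z
  rwa [ip_inv_inv, tEv2 h hm] at h1

theorem tEv3 (x y z : M) : T x y z⁻¹ = T x y z := by
  rw [tAnti h hm x z⁻¹ y, tEv2 h hm, ← tAnti h hm x z y]

theorem tR3s (c y u : M) : T u y c = T c y u + T c y (y * u) := by
  have h1 := h.R3 c y u
  rw [tEv2 h hm, tEv3 h hm, tN1 h hm, tG h hm, tH h hm, tEv2 h hm] at h1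
  exact h1

theorem tSpp (c u y : M) : T c u (u * y) = T u c (y * c) := by
  have h1 := h.S (u⁻¹ * c) (u * y) u
  rw [ip_il, ip_il2, tEv3 h hm] at h1
  have h2 := tN1 h hm (u⁻¹ * c) (u * y) u
  rw [ip_il2] at h2
  rw [tAnti h hm, tAnti h hm u, h2, h1]

theorem tK1 (u c y : M) : T u c (y * c) = - T u c (c * y) := by
  have h1 := tSpp h hm (u * c) u y
  rw [tH h hm, tSpp h hm] at h1
  have h2 := tSt h hm u y c
  rw [tEv3 h hm, tEv2 h hm, tAnti h hm] at h2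
  rw [h1, ← h2, neg_neg]

theorem tgg (c y u : M) : T c y (u * y) = T c y (y * u) := by
  have h1 := tR3s h hm c y⁻¹ u⁻¹
  have h2 := tR3s h hm c y u
  rw [← ip_inv_rev, tEv3 h hm, tEv3 h hm, tEv2 h hm, tEv2 h hm, tEv2 h hm, tE5 h hm, h2] at h1
  exact (add_left_cancel h1).symm

theorem t2 (c y u : M) : T c y u = - T c y u := by
  have h1 := tK1 h hm c y (y⁻¹ * u)
  rw [tgg h hm, ip_il2] at h1
  exact h1

theorem t13 (c y u : M) : T u y (y * c) = T c y (y * u) := by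
  have h1 := tR3s h hm c y u
  have h2 := tR3s h hm u y c
  rw [t2 h hm c y (y * u), eq_neg_iff_add_eq_zero]
  linear_combination (norm := module) - h1 - h2

theorem tg (c y u : M) : T c y (y * u) = T c y u := by
  have h1 := t13 h hm c y (y * (y⁻¹ * u))
  have h2 := t13 h hm c y (y⁻¹ * u)
  rw [tH h hm, h2, ip_il2] at h1
  exact h1.symm

/-- The defect vanishes. -/
theorem tzero (c y u : M) : T c y u = 0 := by
  have h1 := t13 h hm c y u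
  rw [tg h hm, tg h hm] at h1
  have h2 := tR3s h hm c y u
  rw [tg h hm, h1] at h2
  exact (left_eq_add.mp h2)

end mlevel

end Pool.Agent.H40SUF
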