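import Pool.Agent.helper40.SUF.Ext

/-!
Semi-universally flexible inverse property loops in the class generated by the Moufang
loops under central extensions and the local and residual operators.
-/

namespace Pool.Agent.H40SUF

universe u

section

variable {Q S : Type u} [LoopQ Q] [LoopQ S]

theorem SUF_sub {f : S → Q} (hf : ∀ x y : S, f (x * y) = f x * f y)
    (hi : Function.Injective f) (h : SUF Q) : SUF S := by
  refine ⟨fun a x y => hi ?_, fun b x y => hi ?_⟩
  · have h1 := h.1 (f a) (f x) (f y)
    simpa only [map_iso hf, map_one' hf] using h1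
  · have h1 := h.2 (f b) (f x) (f y)
    simpa only [map_iso hf, map_one' hf] using h1

theorem InvProp_sub {f : S → Q} (hf : ∀ x y : S, f (x * y) = f x * f y)
    (hi : Function.Injective f) (h : InvProp Q) : InvProp S := by
  refine ⟨fun x => hi ?_, fun x y => hi ?_, fun x y => hi ?_⟩
  · simpa only [map_ldiv hf, map_rdiv hf, map_one' hf] using h.1 (f x)
  · simpa only [map_ldiv hf, map_rdiv hf, map_one' hf, hf] using h.2.1 (f x) (f y)
  · simpa only [map_ldiv hf, map_rdiv hf, map_one' hf, hf] using h.2.2 (f x) (f y)

theorem Moufang_sub {f : S → Q} (hf : ∀ x y : S, f (x * y) = f x * f y)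
    (hi : Function.Injective f) (h : Moufang Q) : Moufang S := by
  intro x y z
  apply hi
  simpa only [hf] using h (f x) (f y) (f z)

end

theorem towerClass_moufang {Q : Type u} [LoopQ Q] (h : TowerClass Q) (hip : InvProp Q)
    (hs : SUF Q) : Moufang Q := by
  induction h with
  | moufang h => exact h
  | central f hf h ih =>
    exact central_step f hf hip hs
      (ih (InvProp_image hf.map_mul hf.surj hip) (SUF_image hf.map_mul hf.surj hs))
  | locally S f hm hi hx h ih =>
    intro x y z
    obtain ⟨a, b, c, ha, hb, hc⟩ := hx x y z
    have hM := ih x y z (InvProp_sub (hm x y z) (hi x y z) hip)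
      (SUF_sub (hm x y z) (hi x y z) hs)
    have h1 := congrArg (f x y z) (hM a b c)
    simpa only [hm, ha, hb, hc] using h1
  | residually P f hm hsu hx h ih =>
    intro x y z
    by_contra hne
    have key : ∀ v w : _, (x * (y * z)) * x = v → (x * y) * (z * x) = w → v ≠ w → False := by
      intro v w hv hw hvw
      have hM := ih v w (InvProp_image (hm v w) (hsu v w) hip)
        (SUF_image (hm v w) (hsu v w) hs)
      apply hx v w hvw
      have h1 := hM (f v w x) (f v w y) (f v w z)
      simp only [← hm, hv, hw] at h1
      exact h1
    exact key _ _ rfl rfl hne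

end Pool.Agent.H40SUF
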